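import Mathlib
import Pool.Agent.Helper226.SMain
import Pool.Agent.Helper226.VCFam

/-! The family of all homogeneous very compressed ideals in a monomial chart, for an arbitrary
number `n` of variables and an arbitrary socle degree `s`, and its dimension. -/

set_option autoImplicit false

open scoped TensorProduct
open MvPolynomial CategoryTheory AlgebraicGeometry

universe u

namespace Pool.Agent.Y97.VC3

open Pool.Agent.Helper226 Pool.Agent.Helper226.SData

variable {n s d : ℕ} (D : SData n s d)

/-- the monomials of degree `s` outside of the basis -/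
abbrev NI : Type := {μ : Mi n s // ¬ ∃ j, D.e j = μ.1}

/-- the indices of the basis monomials of degree `s` -/
abbrev EI : Type := {j : Fin d // (D.e j).degree = s}

noncomputable instance : Fintype (NI D) := Fintype.ofFinite _

section
variable (k : Type u) [Field k]

open Classical in
/-- the generic coefficients -/
noncomputable def genA (μ : Fin n →₀ ℕ) (j : Fin d) :
    MvPolynomial (ULift.{u} (NI D × EI D)) k :=
  if h : (∃ h1 : μ ∈ (Finset.univ : Finset (Fin n)).finsuppAntidiag s, ¬ ∃ j, D.e j = μ) ∧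
      (D.e j).degree = s then
    X ⟨(⟨⟨μ, h.1.choose⟩, h.1.choose_spec⟩, ⟨j, h.2⟩)⟩
  else 0

lemma genA_eq (i : NI D) (j : EI D) : genA D k i.1.1 j.1 = X ⟨(i, j)⟩ := by
  unfold genA
  rw [dif_pos ⟨⟨i.1.2, i.2⟩, j.2⟩]

variable (z : Fin n) (hz : ∀ j, D.e j ≠ Finsupp.single z s) (hs : 1 ≤ s)

/-- the family of all coefficients in degree `s` -/
noncomputable def fam : Chart k (mb k D.e) (MvPolynomial (ULift.{u} (NI D × EI D)) k) :=
  D.hchart k (genA D k) z hz hs

lemma clf_fam_surjective : Function.Surjective (clf (fam D k z hz hs)) := by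
  rw [← AlgHom.range_eq_top, eq_top_iff, ← MvPolynomial.adjoin_range_X, Algebra.adjoin_le_iff]
  rintro _ ⟨⟨i, j⟩, rfl⟩
  refine ⟨(uc k (mb k D.e)).q (monomial i.1.1 1) j.1, ?_⟩
  have h1 := uc_map_clf (fam D k z hz hs)
  have h2 : clf (fam D k z hz hs) ((uc k (mb k D.e)).q (monomial i.1.1 1) j.1) =
      (fam D k z hz hs).q (monomial i.1.1 1) j.1 := by
    rw [← Chart.map_q, h1]
  change clf (fam D k z hz hs) _ = _
  rw [h2]
  unfold fam
  have hdeg : (i.1.1 : Fin n →₀ ℕ).degree = s := (mem_Mi s i.1.1).1 i.1.2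
  rw [hchart_q, if_pos hdeg.le, D.top_not _ _ i.2]
  change (if (D.e j.1).degree = s then genA D k i.1.1 j.1 else 0) = _
  rw [if_pos j.2, genA_eq]

/-- the family is topologically embedded -/
lemma mor_fam_isInducing : Topology.IsInducing (mor (fam D k z hz hs)) := by
  unfold mor
  have h1 : Topology.IsClosedEmbedding
      (Spec.map (CommRingCat.ofHom (clf (fam D k z hz hs)).toRingHom)) :=
    PrimeSpectrum.isClosedEmbedding_comap_of_surjective _ _ (clf_fam_surjective D k z hz hs)
  have h2 := (chartι k (Idx.single (mb k D.e))).isOpenEmbedding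
  exact (h2.isInducing.comp h1.isInducing)

/-- The closure of the family. -/
def famCl : Set (HilbS k (MvPolynomial (Fin n) k) d) :=
  closure (Set.range (mor (fam D k z hz hs)))

lemma famCl_irreducible : IsIrreducible (famCl D k z hz hs) := by
  unfold famCl
  apply IsIrreducible.closure
  rw [← Set.image_univ]
  have : IrreducibleSpace (Spec (CommRingCat.of (MvPolynomial (ULift.{u} (NI D × EI D)) k))) :=
    inferInstanceAs (IrreducibleSpace (PrimeSpectrum (MvPolynomial (ULift.{u} (NI D × EI D)) k)))
  exact (IrreducibleSpace.isIrreducible_univ _).image _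
    (mor (fam D k z hz hs)).continuous.continuousOn

lemma famCl_dim : ((Fintype.card (NI D) * Fintype.card (EI D) : ℕ) : WithBot ℕ∞) ≤
    topologicalKrullDim (famCl D k z hz hs) := by
  have h1 : ringKrullDim (MvPolynomial (ULift.{u} (NI D × EI D)) k) =
      ((Fintype.card (NI D) * Fintype.card (EI D) : ℕ) : WithBot ℕ∞) := by
    rw [MvPolynomial.ringKrullDim_of_isNoetherianRing, ringKrullDim_eq_zero_of_field]
    simp
  rw [← h1, ← PrimeSpectrum.topologicalKrullDim_eq_ringKrullDim]
  let f : PrimeSpectrum (MvPolynomial (ULift.{u} (NI D × EI D)) k) → famCl D k z hz hs :=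
    fun x => ⟨mor (fam D k z hz hs) x, subset_closure ⟨x, rfl⟩⟩
  have hf : Topology.IsInducing f := by
    have h2 : Topology.IsInducing (Subtype.val ∘ f) := mor_fam_isInducing D k z hz hs
    exact Topology.IsInducing.subtypeVal.of_comp_iff.1 h2
  exact hf.topologicalKrullDim_le

lemma famCl_meets :
    (famCl D k z hz hs ∩ Set.range (chartι k (Idx.single (mb k D.e)))).Nonempty := by
  have : Nonempty (PrimeSpectrum (MvPolynomial (ULift.{u} (NI D × EI D)) k)) := inferInstance
  obtain ⟨x⟩ := this
  let x' : Spec (CommRingCat.of (MvPolynomial (ULift.{u} (NI D × EI D)) k)) := x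
  exact ⟨mor (fam D k z hz hs) x', subset_closure ⟨x', rfl⟩,
    ⟨Spec.map (CommRingCat.ofHom (clf (fam D k z hz hs)).toRingHom) x', rfl⟩⟩

lemma famCl_subset [IsAlgClosed k] (P : Ideal (MvPolynomial (Fin n) k) → Prop)
    (hP : ∀ A : (Fin n →₀ ℕ) → Fin d → k, P (D.hchart k A z hz hs).ker) :
    famCl D k z hz hs ⊆ closure ((hilb k (MvPolynomial (Fin n) k) d).locus P) := by
  unfold famCl
  apply closure_minimal _ isClosed_closure
  rintro _ ⟨o, rfl⟩
  refine mem_closure_iff.2 ?_
  intro U hU hoU
  have hJ : JacobsonSpace (PrimeSpectrum (MvPolynomial (ULift.{u} (NI D × EI D)) k)) :=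
    PrimeSpectrum.isJacobsonRing_iff_jacobsonSpace.1 (isJacobsonRing_of_finiteType (A := k))
  have hV : IsOpen ((mor (fam D k z hz hs)) ⁻¹' U) :=
    hU.preimage (mor (fam D k z hz hs)).continuous
  obtain ⟨M, hMV, hMc⟩ := @nonempty_inter_closedPoints
    (PrimeSpectrum (MvPolynomial (ULift.{u} (NI D × EI D)) k)) _ hJ
    ((mor (fam D k z hz hs)) ⁻¹' U) ⟨o, hoU⟩ hV.isLocallyClosed
  have hM : M.asIdeal.IsMaximal := (PrimeSpectrum.isClosed_singleton_iff_isMaximal M).1 hMc
  obtain ⟨g, hg⟩ := exists_hom_of_maximal (k := k) M.asIdeal hM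
  refine ⟨mor (fam D k z hz hs) M, hMV, ?_⟩
  apply mem_locus_of_chart ((fam D k z hz hs).map g) P
  · unfold fam
    rw [hchart_map]
    exact hP _
  · exact mor_point _ g M hg.symm

theorem famCl_not_smoothable [IsAlgClosed k]
    (hdim : n * d < Fintype.card (NI D) * Fintype.card (EI D)) :
    ¬ famCl D k z hz hs ⊆
      closure ((hilb k (MvPolynomial (Fin n) k) d).locus Ideal.IsRadical) := by
  intro h
  have h1 := topDim_le_of_subset_smoothable (mb k D.e) (famCl D k z hz hs)
    (famCl_irreducible D k z hz hs) h (famCl_meets D k z hz hs)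
  have h2 := (famCl_dim D k z hz hs).trans h1
  have h3 : Fintype.card (NI D) * Fintype.card (EI D) ≤ n * d := by exact_mod_cast h2
  omega

include hz hs in
/-- **Dimension count.**  If `n d` is less than the dimension of the Grassmannian then the very
compressed locus is not contained in the smoothable component. -/
theorem vc_not_smoothable [IsAlgClosed k] (hn : 1 ≤ n)
    (hd1 : (n + s - 1).choose n < d) (hd2 : d ≤ (n + s).choose n)
    (hE : Fintype.card (EI D) = d - (n + s - 1).choose n)
    (hdim : n * d < Fintype.card (NI D) * Fintype.card (EI D)) :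
    ¬ (hilb k (MvPolynomial (Fin n) k) d).locus (IsVeryCompressed d) ⊆
      closure ((hilb k (MvPolynomial (Fin n) k) d).locus Ideal.IsRadical) := by
  intro h
  apply famCl_not_smoothable D k z hz hs hdim
  refine (famCl_subset D k z hz hs (IsVeryCompressed d) fun A => ?_).trans
    (closure_minimal h isClosed_closure)
  exact vc_of_bounds D _ hn hs hd1 hd2 hE (D.hchart_high z hz hs A) (D.hchart_low z hz hs A)

end

/-- the number of the monomials of degree `s` outside of the basis -/
theorem card_NI (hn : 1 ≤ n) :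
    Fintype.card (NI D) + Fintype.card (EI D) = (s + n - 1).choose (n - 1) := by
  classical
  have h1 : Fintype.card (EI D) = Fintype.card {μ : Mi n s // ∃ j, D.e j = μ.1} := by
    apply Fintype.card_congr
    refine Equiv.ofBijective
      (fun j => ⟨⟨D.e j.1, (mem_Mi s _).2 j.2⟩, ⟨j.1, rfl⟩⟩) ⟨?_, ?_⟩
    · intro j j' h
      have h2 : D.e j.1 = D.e j'.1 := congrArg (fun x => x.1.1) h
      exact Subtype.ext (D.e_inj h2)
    · rintro ⟨⟨μ, hμ⟩, j, hj⟩
      refine ⟨⟨j, ?_⟩, ?_⟩
      · rw [hj]
        exact (mem_Mi s _).1 hμ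
      · exact Subtype.ext (Subtype.ext hj)
  have h2 : Fintype.card (NI D) = Fintype.card {μ : Mi n s // ¬ ∃ j, D.e j = μ.1} :=
    Fintype.card_congr (Equiv.refl _)
  rw [h1, h2, ← card_Mi s hn, add_comm]
  exact Fintype.card_subtype_or_disjoint _ _ (by
    rw [Pi.disjoint_iff]
    intro x
    simp) |>.symm.trans (by
      apply Fintype.card_congr
      exact Equiv.subtypeUnivEquiv fun x => Classical.em _)

end Pool.Agent.Y97.VC3
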