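import Mathlib
import Pool.Agent.Y97.VC3.Fam

/-! Monomial bases in three variables for all socle degrees. -/

set_option autoImplicit false

open MvPolynomial

universe u

namespace Pool.Agent.Y97.VC3

open Pool.Agent.Helper226 Pool.Agent.Helper226.SData

/-- exponents of degree less than `s` -/
noncomputable def Lo (s : ℕ) : Finset (Fin 3 →₀ ℕ) :=
  (Finset.range s).biUnion fun i => Finset.finsuppAntidiag Finset.univ i

lemma mem_Lo (s : ℕ) (μ : Fin 3 →₀ ℕ) : μ ∈ Lo s ↔ μ.degree < s := by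
  unfold Lo
  rw [Finset.mem_biUnion]
  constructor
  · rintro ⟨i, hi, h⟩
    rw [mem_Mi] at h
    rw [h]
    exact Finset.mem_range.1 hi
  · intro h
    exact ⟨μ.degree, Finset.mem_range.2 h, (mem_Mi _ _).2 rfl⟩

lemma card_anti (i : ℕ) :
    (Finset.finsuppAntidiag (Finset.univ : Finset (Fin 3)) i).card = (i + 2).choose 2 := by
  rw [Finset.card_finsuppAntidiag_nat_eq_choose, Finset.card_univ, Fintype.card_fin]
  rw [show 3 + i - 1 = 2 + i by omega, show i + 2 = 2 + i by omega]
  exact (Nat.choose_symm_add).symm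

lemma card_Lo (s : ℕ) : (Lo s).card = (s + 2).choose 3 := by
  unfold Lo
  rw [Finset.card_biUnion]
  · rw [Finset.sum_congr rfl fun i _ => card_anti i]
    induction s with
    | zero => simp
    | succ s ih =>
      rw [Finset.sum_range_succ, ih, show s + 1 + 2 = (s + 2) + 1 by omega,
        Nat.choose_succ_succ (s + 2) 2, add_comm]
  · intro i _ j _ hij
    change Disjoint (Finset.finsuppAntidiag (Finset.univ : Finset (Fin 3)) i)
      (Finset.finsuppAntidiag (Finset.univ : Finset (Fin 3)) j)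
    rw [Finset.disjoint_left]
    intro μ h1 h2
    rw [mem_Mi] at h1 h2
    exact hij (h1.symm.trans h2)

/-- exponents of degree `s` with odd first and positive second exponent -/
noncomputable def Od (s : ℕ) : Finset (Fin 3 →₀ ℕ) :=
  ((Finset.univ : Finset (Fin 3)).finsuppAntidiag s).filter fun μ => μ 0 % 2 = 1 ∧ 1 ≤ μ 1

lemma mem_Od (s : ℕ) (μ : Fin 3 →₀ ℕ) :
    μ ∈ Od s ↔ μ.degree = s ∧ μ 0 % 2 = 1 ∧ 1 ≤ μ 1 := by
  unfold Od
  rw [Finset.mem_filter, mem_Mi]

/-- exponent with given entries -/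
noncomputable def mk3 (a b c : ℕ) : Fin 3 →₀ ℕ := Finsupp.equivFunOnFinite.symm ![a, b, c]

lemma sum_odd (s m : ℕ) (h : 2 * m ≤ s) :
    ∑ i ∈ Finset.range m, (s - (2 * i + 1)) + m * m = m * s := by
  induction m with
  | zero => simp
  | succ m ih =>
    rw [Finset.sum_range_succ]
    have h1 := ih (by omega)
    obtain ⟨c, hc⟩ : ∃ c, s = 2 * m + 1 + c := ⟨s - (2 * m + 1), by omega⟩
    have h2 : s - (2 * m + 1) = c := by omega
    rw [h2]
    nlinarith

lemma le_card_Od (s r : ℕ) (h : 4 * r ≤ s ^ 2) : r ≤ (Od s).card := by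
  have h1 : ((Finset.range (s / 2)).sigma fun i => Finset.range (s - (2 * i + 1))).card ≤
      (Od s).card := by
    apply Finset.card_le_card_of_injOn
      (fun x => mk3 (2 * x.1 + 1) (x.2 + 1) (s - (2 * x.1 + 1) - (x.2 + 1)))
    · rintro ⟨i, j⟩ hx
      rw [Finset.mem_coe, Finset.mem_sigma, Finset.mem_range, Finset.mem_range] at hx
      obtain ⟨hi, hj⟩ := hx
      dsimp only at hi hj
      rw [Finset.mem_coe, mem_Od]
      refine ⟨?_, ?_, ?_⟩
      · rw [Finsupp.degree_eq_sum, Fin.sum_univ_three]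
        change (2 * i + 1) + (j + 1) + (s - (2 * i + 1) - (j + 1)) = s
        omega
      · change (2 * i + 1) % 2 = 1
        omega
      · change 1 ≤ j + 1
        omega
    · rintro ⟨i, j⟩ - ⟨i', j'⟩ - hx
      have h0 : 2 * i + 1 = 2 * i' + 1 := DFunLike.congr_fun hx 0
      have h1 : j + 1 = j' + 1 := DFunLike.congr_fun hx 1
      have h2 : i = i' := by omega
      have h3 : j = j' := by omega
      rw [h2, h3]
  refine le_trans ?_ h1
  rw [Finset.card_sigma]
  simp only [Finset.card_range]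
  have h2 := sum_odd s (s / 2) (by omega)
  rcases Nat.even_or_odd' s with ⟨m, hm | hm⟩
  · have h3 : s / 2 = m := by omega
    rw [h3] at h2 ⊢
    subst hm
    nlinarith
  · have h3 : s / 2 = m := by omega
    rw [h3] at h2 ⊢
    subst hm
    have h4 : 4 * r ≤ 4 * (m * m + m) + 1 := by nlinarith
    have h5 : r ≤ m * m + m := by omega
    nlinarith

section
variable {s : ℕ} {T : Finset (Fin 3 →₀ ℕ)} (hT : T ⊆ Od s)

include hT in
lemma disj : Disjoint (Lo s) T := by
  rw [Finset.disjoint_left]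
  intro μ h1 h2
  have h3 := ((mem_Od s μ).1 (hT h2)).1
  have h4 := (mem_Lo s μ).1 h1
  omega

variable {d : ℕ} (hd : (s + 2).choose 3 + T.card = d)

include hT hd in
lemma card_B : (Lo s ∪ T).card = d := by
  rw [Finset.card_union_of_disjoint (disj hT), card_Lo, hd]

/-- numbering of the basis -/
noncomputable def ee : {μ // μ ∈ Lo s ∪ T} ≃ Fin d :=
  (Lo s ∪ T).equivFinOfCardEq (card_B hT hd)

/-- the combinatorial datum -/
noncomputable def DD : SData 3 s d where
  e j := ((ee hT hd).symm j).1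
  e_inj := Subtype.val_injective.comp (ee hT hd).symm.injective
  e_deg := by
    intro j
    have h := ((ee hT hd).symm j).2
    rw [Finset.mem_union] at h
    rcases h with h | h
    · exact ((mem_Lo _ _).1 h).le
    · exact ((mem_Od _ _).1 (hT h)).1.le
  e_small := by
    intro μ hμ
    refine ⟨ee hT hd ⟨μ, Finset.mem_union_left _ ((mem_Lo _ _).2 hμ)⟩, ?_⟩
    rw [Equiv.symm_apply_apply]

lemma DD_mem (j : Fin d) (hj : ((DD hT hd).e j).degree = s) : (DD hT hd).e j ∈ T := by
  have h := ((ee hT hd).symm j).2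
  rw [Finset.mem_union] at h
  rcases h with h | h
  · exact absurd ((mem_Lo _ _).1 h) (by
      change ¬ ((DD hT hd).e j).degree < s
      omega)
  · exact h

lemma DD_par : (DD hT hd).Par := by
  intro j hj
  exact ((mem_Od _ _).1 (hT (DD_mem hT hd j hj))).2

lemma card_EI : Fintype.card (EI (DD hT hd)) = T.card := by
  rw [← Fintype.card_coe T]
  apply Fintype.card_congr
  refine Equiv.ofBijective (fun j => ⟨(DD hT hd).e j.1, DD_mem hT hd j.1 j.2⟩) ⟨?_, ?_⟩
  · intro j j' h
    have h2 : (DD hT hd).e j.1 = (DD hT hd).e j'.1 :=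
      congrArg (fun x : {μ // μ ∈ T} => x.1) h
    exact Subtype.ext ((DD hT hd).e_inj h2)
  · rintro ⟨μ, hμ⟩
    have h1 : (DD hT hd).e (ee hT hd ⟨μ, Finset.mem_union_right _ hμ⟩) = μ := by
      change ((ee hT hd).symm (ee hT hd ⟨μ, Finset.mem_union_right _ hμ⟩)).1 = μ
      rw [Equiv.symm_apply_apply]
    refine ⟨⟨ee hT hd ⟨μ, Finset.mem_union_right _ hμ⟩, ?_⟩, Subtype.ext h1⟩
    rw [h1]
    exact ((mem_Od _ _).1 (hT hμ)).1

lemma DD_z (_ : 1 ≤ s) : ∀ j, (DD hT hd).e j ≠ Finsupp.single 2 s := by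
  intro j hj
  have h1 := (DD_par hT hd j (by rw [hj, Finsupp.degree_single])).1
  rw [hj] at h1
  simp at h1

end

lemma numeric (s r : ℕ) (hs : 8 ≤ s) (h1 : s + 5 ≤ r) (h2 : 4 * r ≤ s ^ 2) :
    3 * ((s + 2).choose 3 + r) < ((s + 2).choose 2 - r) * r := by
  have e1 : (s + 2).choose 3 * 3 = (s + 2).choose 2 * s := by
    have := Nat.choose_succ_right_eq (s + 2) 2
    simpa using this
  have e2 : (s + 2).choose 2 * 2 = (s + 2) * (s + 1) := by
    have := Nat.choose_succ_right_eq (s + 2) 1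
    simpa using this
  set M := (s + 2).choose 2 with hM
  have hr : r ≤ M := by nlinarith
  obtain ⟨m, hm⟩ : ∃ m, M = m + r := ⟨M - r, by omega⟩
  rw [hm, Nat.add_sub_cancel]
  have e3 : 3 * ((s + 2).choose 3 + r) = M * s + 3 * r := by omega
  rw [e3, hm]
  rw [hm] at e2
  zify at *
  nlinarith [mul_nonneg (sub_nonneg.2 h1) (sub_nonneg.2 h2),
    mul_nonneg (sub_nonneg.2 h1) (by nlinarith : (0 : ℤ) ≤ (s : ℤ) ^ 2 + 2 * s - 28)]

end Pool.Agent.Y97.VC3
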