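import Mathlib
import Pool.Agent.Y97.VC3.Inst

/-! The two theorems on very compressed loci in dimension three. -/

set_option autoImplicit false

open AlgebraicGeometry

universe u

namespace Pool.Agent.Y97.VC3

open Pool.Agent.Helper226

lemma numeric2 (s r : ℕ) (h2 : 4 * r ≤ s ^ 2) : (s + 2).choose 3 + r ≤ (s + 3).choose 3 := by
  have e2 : (s + 2).choose 2 * 2 = (s + 2) * (s + 1) := by
    have := Nat.choose_succ_right_eq (s + 2) 1
    simpa using this
  have e3 : (s + 3).choose 3 = (s + 2).choose 2 + (s + 2).choose 3 := Nat.choose_succ_succ _ _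
  have : r ≤ (s + 2).choose 2 := by nlinarith
  omega

theorem main (k : Type u) [Field k] [IsAlgClosed k] [CharZero k] (s r : ℕ) (hs : 2 ≤ s)
    (hr : 1 ≤ r) (h4 : 4 * r ≤ s ^ 2) :
    ((hilb k (MvPolynomial (Fin 3) k) ((s + 2).choose 3 + r)).locus
      (IsVeryCompressed ((s + 2).choose 3 + r))).Nonempty ∧
    closure ((hilb k (MvPolynomial (Fin 3) k) ((s + 2).choose 3 + r)).locus
      (IsVeryCompressed ((s + 2).choose 3 + r))) ∉
      irreducibleComponents (hilb k (MvPolynomial (Fin 3) k) ((s + 2).choose 3 + r)).H ∧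
    (8 ≤ s → s + 5 ≤ r →
      ¬ (hilb k (MvPolynomial (Fin 3) k) ((s + 2).choose 3 + r)).locus
        (IsVeryCompressed ((s + 2).choose 3 + r)) ⊆
        closure ((hilb k (MvPolynomial (Fin 3) k) ((s + 2).choose 3 + r)).locus
          Ideal.IsRadical)) := by
  obtain ⟨T, hT, hTr⟩ := Finset.exists_subset_card_eq (le_card_Od s r h4)
  have hd : (s + 2).choose 3 + T.card = (s + 2).choose 3 + r := by rw [hTr]
  have hz := DD_z hT hd (by omega)
  have e0 : 3 + s - 1 = s + 2 := by omega
  have hd1 : (3 + s - 1).choose 3 < (s + 2).choose 3 + r := by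
    rw [e0]; omega
  have hd2 : (s + 2).choose 3 + r ≤ (3 + s).choose 3 := by
    rw [show 3 + s = s + 3 by omega]
    exact numeric2 s r h4
  have hE : Fintype.card (EI (DD hT hd)) = (s + 2).choose 3 + r - (3 + s - 1).choose 3 := by
    rw [card_EI, hTr, e0]
    omega
  refine ⟨?_, ?_, ?_⟩
  · exact ⟨_, chartι_zp_mem_locus ((DD hT hd).hchart k (fun _ _ => 0) 2 hz (by omega)) _
      (SData.vc_of_bounds (DD hT hd) _ (by norm_num) (by omega) hd1 hd2 hE
      ((DD hT hd).hchart_high 2 hz (by omega) _) ((DD hT hd).hchart_low 2 hz (by omega) _))⟩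
  · exact SData.closure_not_component (DD hT hd) (DD_par hT hd) hs hd1 hd2 hE
  · intro hs8 hr5
    refine vc_not_smoothable (DD hT hd) k 2 hz (by omega) (by norm_num) hd1 hd2 hE ?_
    have h6 := card_NI (DD hT hd) (by norm_num)
    have h7 := card_EI hT hd
    have h8 : (s + 3 - 1).choose (3 - 1) = (s + 2).choose 2 := by
      rw [show s + 3 - 1 = s + 2 by omega]
    rw [h8, h7, hTr] at h6
    have h9 : Fintype.card (NI (DD hT hd)) = (s + 2).choose 2 - r := by omega
    rw [h9, h7, hTr]
    exact numeric s r hs8 hr5 h4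

end Pool.Agent.Y97.VC3
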